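import Pool.Agent.Helper76.THK.Thk

/-! THE THICK LEAF. One form `g` of degree `D` in all coordinates, known to `V`, whose hull is filled over `V`. After adding
fresh digits to the point (extension `fsp S M`, point `fq Q`, same cells of level `1`), a refinement `La` of `V` of entropy
`o(n)` is a leaf of dimension `M`; its first `v` parameters are rescaled coordinates. -/

set_option autoImplicit false

namespace Pool.Agent.Helper76.THK

open Finset Filter Topology Matrix Metric Pool.Agent.Helper69.RK Pool.Agent.Helper31.EC Pool.Agent.Helper31.EC.Sp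
open Pool.Agent.Helper95.LF (PdM)
open Pool.Agent.Helper40.EL
open Pool.Agent.Helper3.LF Pool.Agent.Helper84.MT
open Pool.Agent.Helper89.LX (dot_self_nonneg sum_mul_le dl_one_le)
open Pool.Agent.Helper76.RL (jac fam Rw)
open Pool.Agent.Helper63.FRT
open Pool.Agent.Helper76.DIM (ent_fin nv_fin)
open Pool.Agent.Helper76.LG
open Pool.Agent.Helper85.OA

noncomputable section

variable {S : Sp} {M v q D : ℕ}

/-- THE THICK LEAF over `V` (in the extension `fsp S M`): `E` gives the free coordinates, `Q'` is the point with fresh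
digits, `P` the parameters, the first `v` of them being the rescaled free coordinates -/
structure TLeaf (hvq : v + q = M) (V : ∀ k, Setoid (S.F k).Ω) (Q : S.VV M) (g L : ℕ)
    (E : ∀ k, ((fsp S M).F k).Ω → (Fin v ⊕ Fin q ≃ Fin M))
    (La : ∀ k, Setoid ((fsp S M).F k).Ω) (P : (fsp S M).VV M) (N : ℕ → ℝ) (c : ∀ k, ((fsp S M).F k).Ω → Fin M → ℤ)
    (β : ∀ k, ((fsp S M).F k).Ω → Fin L) (A : ∀ k, ((fsp S M).F k).Ω → Prop)
    (f : Leaf (fsp S M) ((fpj S M).vv Q) (Pool.Agent.Helper84.MT.lin g)) : Prop where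
  he : f.e = M
  eLa : f.La = La
  par : ∀ k w (j : Fin M), f.Y.v k w (Fin.cast he.symm j) = P.v k w j
  /-- the chart of a free coordinate is the inverse of the rescaling -/
  chart : ∀ᶠ k in UF, ∀ (w : ((fsp S M).F k).Ω) (y : Fin f.e → ℝ) (i : Fin v),
    f.F k w y (E k w (Sum.inl i)) = (c k w (e00 hvq (Sum.inl i)) + y (Fin.cast he.symm (e00 hvq (Sum.inl i)))) / N k
  le : ∀ k, La k ≤ (fpj S M).pb V k
  vb : S.VB V → (fsp S M).VB La
  ent : Tendsto (fun k => h (fc (La k)) (fc ((fpj S M).pb V k)) / ((fsp S M).F k).n) UF (𝓝 0)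
  N1 : ∀ᶠ k in UF, 1 ≤ N k
  subN : (fsp S M).Sub N
  /-- the first parameters -/
  eP : ∀ᶠ k in UF, ∀ w, ((fsp S M).F k).μ w ≠ 0 → ∀ i : Fin v, P.v k w (e00 hvq (Sum.inl i)) =
    N k * (fq Q).v k w (E k w (Sum.inl i)) - c k w (e00 hvq (Sum.inl i))
  uP : ∀ᶠ k in UF, ∀ w j, 0 ≤ P.v k w j ∧ P.v k w j ≤ 1
  msc : ∀ᶠ k in UF, ∀ w w', ((fsp S M).F k).μ w ≠ 0 → ((fsp S M).F k).μ w' ≠ 0 → ((fsp S M).F k).Z w w' →
    La k w w' → c k w = c k w'
  msE : ∀ k w w', La k w w' → E k w = E k w'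
  /-- the columns depend on the old point only -/
  Epj : ∀ k w w', w.1 = w'.1 → E k w = E k w'
  tA : Typ A
  idx : ∀ k w w', A k w → A k w' → (fpj S M).pb V k w w' → c k w = c k w' → β k w = β k w' → La k w w'

/-- the number of values of the index of the thick leaf -/
def nT (M v q D : ℕ) : ℕ := by
  classical
  exact Fintype.card (Fin (nC (Kr M (LR M D))) × Kt M v q D)

/-- the grade of the thick leaf -/
def gT (M D : ℕ) : ℕ := 1 * cA M (M + M) (LR M D)

lemma ker_fin_vb {T : Sp} {α : Type} [Fintype α] (X : ∀ k, (T.F k).Ω → α) : T.VB (fun k => Setoid.ker (X k)) := by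
  have hS : T.Sub (fun _ => (Fintype.card α : ℝ)) := T.Sub_const (Nat.cast_nonneg _)
  refine ⟨1, ?_⟩
  filter_upwards [hS.eventually_le one_pos] with k hk ω _
  refine (nv_fin (X k) ω).trans ?_
  linarith

/-- THE THICK LEAF -/
theorem thick (hvq : v + q = M) (hD : 1 ≤ D) {V : ∀ k, Setoid (S.F k).Ω} {Q : S.VV M}
    {g : ∀ k, (S.F k).Ω → Matrix (Mon M D) (Mon M D) ℝ} {w : ∀ k, (S.F k).Ω → ℝ} (x : ThkF V Q v q g w) :
    ∃ (E : ∀ k, ((fsp S M).F k).Ω → (Fin v ⊕ Fin q ≃ Fin M)) (La : ∀ k, Setoid ((fsp S M).F k).Ω)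
      (P : (fsp S M).VV M) (N : ℕ → ℝ) (c : ∀ k, ((fsp S M).F k).Ω → Fin M → ℤ)
      (β : ∀ k, ((fsp S M).F k).Ω → Fin (nT M v q D)) (A : ∀ k, ((fsp S M).F k).Ω → Prop)
      (f : Leaf (fsp S M) ((fpj S M).vv Q) (Pool.Agent.Helper84.MT.lin (gT M D))),
      TLeaf hvq V Q (gT M D) (nT M v q D) E La P N c β A f := by
  classical
  obtain ⟨Y, F, hR⟩ := thk_root hvq hD x
  have hL1 : 1 ≤ LR M D := le_max_left _ _
  obtain ⟨La, P, N, c, β, A, f, y⟩ := pleaf1 le_rfl hL1 (chF_of_root one_pos hL1 hR) ((fpj S M).vv Q)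
    ⟨fun _ => 1, (fsp S M).Sub_const zero_le_one, Eventually.of_forall fun k w _ i => by
      rw [one_mul, abs_sub_comm]
      exact fq_near Q k w i⟩
  refine ⟨fun k w => (tcd hvq Q g k w).1, La, P, N, c,
    fun k w => Fintype.equivFin (Fin (nC (Kr M (LR M D))) × Kt M v q D) (β k w, tcd hvq Q g k w), A, f,
    ⟨y.he, y.eLa, y.par, ?_, fun k => (y.le k).trans inf_le_left, ?_, ?_, y.N1, y.subN, ?_, y.uP, y.msc, ?_, ?_, y.tA, ?_⟩⟩
  · filter_upwards [y.chart] with k hk w z i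
    exact hk w z _ _ (tpin_inl hvq Q g k w i)
  · intro hV
    apply y.vb
    show (fsp S M).VB (fun k => (fpj S M).pb V k ⊓ Setoid.ker (tcd hvq Q g k))
    exact ((fpj S M).vb_pb.mpr hV).inf (ker_fin_vb _)
  · rw [Metric.tendsto_nhds]
    intro ε hε
    filter_upwards [y.ent.eventually (gt_mem_nhds (show 0 < ε / 4 by linarith)),
      ent_fin (S := fsp S M) (tcd hvq Q g) ((fpj S M).pb V) (show 0 < ε / 4 by linarith)] with k a b
    have hn : 0 < ((fsp S M).F k).n := ((fsp S M).F k).pos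
    rw [Real.dist_eq, sub_zero, abs_of_nonneg (div_nonneg (h_nonneg _ _) hn.le), div_lt_iff₀ hn, h_fc]
    rw [div_lt_iff₀ hn, h_fc] at a
    have h1 := ((fsp S M).F k).e_triangle (La k) (Setoid.ker (tcd hvq Q g k)) ((fpj S M).pb V k ⊓ ((fsp S M).F k).Z)
    have e1 : Setoid.ker (tcd hvq Q g k) ⊓ ((fpj S M).pb V k ⊓ ((fsp S M).F k).Z) = tV hvq Q g V k ⊓ ((fsp S M).F k).Z := by
      show Setoid.ker (tcd hvq Q g k) ⊓ ((fpj S M).pb V k ⊓ ((fsp S M).F k).Z) =
        ((fpj S M).pb V k ⊓ Setoid.ker (tcd hvq Q g k)) ⊓ ((fsp S M).F k).Z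
      ac_rfl
    rw [e1] at h1
    nlinarith
  · filter_upwards [hR.pq] with k hk w hw i
    rw [y.eP, hk w hw _ _ (tpin_inl hvq Q g k w i)]
  · intro k w w' h
    have h1 := (y.le k) h
    exact congrArg Prod.fst h1.2
  · intro k w w' h
    show tE hvq Q g k w.1 = tE hvq Q g k w'.1
    rw [h]
  · intro k w w' h1 h2 h3 h4 h5
    have h6 := (Fintype.equivFin (Fin (nC (Kr M (LR M D))) × Kt M v q D)).injective h5
    exact y.idx k w w' h1 h2 ⟨h3, congrArg Prod.snd h6⟩ h4 (congrArg Prod.fst h6)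

end

end Pool.Agent.Helper76.THK
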