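import Pool.Agent.Helper76.THK.Rwf
import Pool.Agent.Helper76.LG.Rtb
import Pool.Agent.Helper14.MC.Ccap

/-! COUNTING over a partition: helper14's `CNT_reg` with a refined base; the entropy of the fine cells of a point given the
cells of `M` polynomials of it. -/

set_option autoImplicit false

namespace Pool.Agent.Helper76.THK

open Finset Filter Topology Matrix Metric Pool.Agent.Helper69.RK Pool.Agent.Helper31.EC Pool.Agent.Helper31.EC.Sp
open Pool.Agent.Helper95.LF (PdM)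
open Pool.Agent.Helper3.LF Pool.Agent.Helper84.MT
open Pool.Agent.Helper89.LX (dot_self_nonneg sum_mul_le)
open Pool.Agent.Helper76.RL (jac)
open Pool.Agent.Helper14.MC

noncomputable section

lemma cellv_chg1 {S : Sp} {M : ℕ} (y : S.VV M) (W : ∀ k, Setoid (S.F k).Ω) (u : ℝ) (k : ℕ) :
    (y.chg W 1 one_pos).cellv u k = y.cellv u k := by
  unfold VV.cellv
  rw [chg_dl, one_mul]
  rfl

/-- counting over a refined base -/
theorem cnt_fc {S : Sp} {M D : ℕ} (hD : 1 ≤ D) (y : S.VV M) {s : ℝ} (hs : 0 ≤ s) (W : ∀ k, Setoid (S.F k).Ω)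
    (A : ∀ k, (S.F k).Ω → Matrix (Mon M D) (Mon M D) ℝ)
    (hA : ∀ᶠ k in UF, ∀ ω, (S.F k).μ ω ≠ 0 → (A k ω).IsSymm ∧ ∀ v, v ⬝ᵥ v ≤ v ⬝ᵥ (A k ω *ᵥ v))
    (hZ : ∀ᶠ k in UF, ∀ ω ω', (S.F k).μ ω ≠ 0 → (S.F k).μ ω' ≠ 0 → (S.F k).Z ω ω' → W k ω ω' → A k ω = A k ω')
    (E : ∀ k, (S.F k).Ω → Prop) (hE : Typ E) (K0 : ℕ → ℝ) (hK0 : S.Sub K0)
    (σ : ∀ k, (S.F k).Ω → ℝ)
    (hσ : ∀ᶠ k in UF, ∀ ω, (S.F k).μ ω ≠ 0 → 0 ≤ σ k ω ∧ σ k ω ≤ M * s)
    (hφE : ∀ᶠ k in UF, ∀ ω, (S.F k).μ ω ≠ 0 → E k ω → phi (S.dl s k) (A k ω) (y.v k ω) ≤ K0 k)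
    (hγE : ∀ᶠ k in UF, ∀ ω, (S.F k).μ ω ≠ 0 → E k ω →
      2 ^ (2 * σ k ω * (S.F k).n) ≤ K0 k * GQ (S.dl s k) (A k ω) (y.v k ω)) {ε : ℝ} (hε : 0 < ε) :
    ∀ᶠ k in UF, (S.F k).e (Setoid.ker (y.cellv s k)) (W k ⊓ (S.F k).Z) +
      (S.F k).n * ∑ ω, (S.F k).μ ω * σ k ω ≤ (M * s + ε) * (S.F k).n := by
  set S' : Sp := S.chg W 1 one_pos with hS'
  have hdl : ∀ k, S'.dl s k = S.dl s k := fun k => by
    rw [hS', chg_dl, one_mul]
  have h1 := CNT_reg (S := S') hD (y.chg W 1 one_pos) s hs A hA (by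
    filter_upwards [hZ] with k hk ω ω' h1 h2 h3
    exact hk ω ω' h1 h2 h3.2 h3.1) E hE K0 (chg_sub W 1 one_pos hK0) σ hσ (by
    filter_upwards [hφE] with k hk ω h1 h2
    rw [hdl]
    exact hk ω h1 h2) (by
    filter_upwards [hγE] with k hk ω h1 h2
    rw [hdl]
    refine le_trans (le_of_eq ?_) (hk ω h1 h2)
    show (2 : ℝ) ^ (2 * σ k ω * (1 * (S.F k).n)) = _
    rw [one_mul])
  have h2 : (y.chg W 1 one_pos).dg s = cl ((y.chg W 1 one_pos).bdd s).toInf := io_eq _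
  rw [h2, H_cl] at h1
  set f : ℕ → ℝ := S'.rt ((y.chg W 1 one_pos).bdd s).toInf.1 S'.tr with hf
  set g : ℕ → ℝ := fun k => ∑ ω, (S'.F k).μ ω * σ k ω with hg
  have hUf : UB f := UB_rt _ _
  have hUg : UB g := by
    apply UB_of_nonneg_le (C := M * s)
    · filter_upwards [hσ] with k hk
      apply Finset.sum_nonneg
      intro ω _
      by_cases h0 : (S.F k).μ ω = 0
      · have h0' : (S'.F k).μ ω = 0 := h0
        rw [h0', zero_mul]
      · exact mul_nonneg ((S.F k).nn ω) (hk ω h0).1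
    · filter_upwards [hσ] with k hk
      exact sum_mul_le _ _ fun ω h0 => (hk ω h0).2
  have h3 : ul f + ul g ≤ M * s := by linarith
  have h4 : ul (fun k => f k + g k) = ul f + ul g := ul_add hUf hUg
  have h5 : Tendsto (fun k => f k + g k) UF (𝓝 (ul f + ul g)) := by
    rw [← h4]
    exact ul_tendsto (hUf.add hUg)
  filter_upwards [h5.eventually (gt_mem_nhds (show ul f + ul g < M * s + ε by linarith))] with k hk
  have hn := (S.F k).pos
  have e1 : f k = (S.F k).e (Setoid.ker (y.cellv s k)) (W k ⊓ (S.F k).Z) / (S.F k).n := by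
    have e2 : f k = (S.F k).e (Setoid.ker ((y.chg W 1 one_pos).cellv s k)) (⊤ ⊓ (W k ⊓ (S.F k).Z)) /
      (1 * (S.F k).n) := rfl
    have e3 : (y.chg W 1 one_pos).cellv s k = y.cellv s k := cellv_chg1 y W s k
    rw [e2, one_mul, top_inf_eq, e3]
  rw [e1] at hk
  have e4 : g k = ∑ ω, (S.F k).μ ω * σ k ω := rfl
  rw [e4] at hk
  have h6 := mul_le_mul_of_nonneg_right hk.le hn.le
  rw [add_mul, div_mul_cancel₀ _ hn.ne'] at h6
  linarith

end

end Pool.Agent.Helper76.THK
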