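import Pool.Agent.Helper76.THK.Ful
import Pool.Agent.Helper81.AD.Frs

/-! FRESH DIGITS OF THE POINT: extension of the space and a point with the same cells of level `1`, whose digits between the
levels `1` and `3` are independent of everything. -/

set_option autoImplicit false

namespace Pool.Agent.Helper76.THK

open Finset Filter Topology Matrix Metric Pool.Agent.Helper69.RK Pool.Agent.Helper31.EC Pool.Agent.Helper31.EC.Sp
open Pool.Agent.Helper40.EL
open Pool.Agent.Helper3.LF Pool.Agent.Helper84.MT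
open Pool.Agent.Helper63.FRT
open Pool.Agent.Helper81.AD (fu fu_law fu_e)

noncomputable section

variable (S : Sp) (M : ℕ)

/-- number of the values of a coordinate -/
def fM (k : ℕ) : ℕ := ⌈(2 : ℝ) ^ (2 * (S.F k).n)⌉₊

theorem fM_pos (k : ℕ) : 0 < fM S k := Nat.ceil_pos.mpr (by positivity)

instance (k : ℕ) : Nonempty (Fin M → Fin (fM S k)) := ⟨fun _ => ⟨0, fM_pos S k⟩⟩

/-- the extension by fresh digits -/
def fsp : Sp := ⟨fun k => fu (S.F k) (Fin M → Fin (fM S k)), S.lim⟩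

def fpj : Pj (fsp S M) S where
  π := fun _ w => w.1
  law := fun k => fu_law (S.F k) (Fin M → Fin (fM S k))
  hZ := fun _ _ _ _ _ => Iff.rfl
  hn := fun _ => rfl

lemma fsp_dl (r : ℝ) (k : ℕ) : (fsp S M).dl r k = S.dl r k := rfl

variable {S M} (Q : S.VV M)

/-- the value of the point -/
def fqv (k : ℕ) (w : ((fsp S M).F k).Ω) (i : Fin M) : ℝ :=
  S.dl 1 k * (Q.cellv 1 k w.1 i + ((w.2 i : ℕ) : ℝ) / fM S k)

lemma fu_mem (k : ℕ) (w : ((fsp S M).F k).Ω) (i : Fin M) :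
    0 ≤ ((w.2 i : ℕ) : ℝ) / fM S k ∧ ((w.2 i : ℕ) : ℝ) / fM S k < 1 := by
  have h1 : (0 : ℝ) < fM S k := by exact_mod_cast fM_pos S k
  have h2 : (((w.2 i : Fin (fM S k)) : ℕ) : ℝ) < fM S k := by exact_mod_cast (w.2 i).2
  refine ⟨by positivity, ?_⟩
  rw [div_lt_one h1]
  exact h2

lemma fqv_near (k : ℕ) (w : ((fsp S M).F k).Ω) (i : Fin M) : |fqv Q k w i - Q.v k w.1 i| ≤ S.dl 1 k := by
  have hδ := S.dl_pos 1 k
  obtain ⟨h1, h2⟩ := fu_mem k w i
  have h3 := Int.floor_le (Q.v k w.1 i / S.dl 1 k)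
  have h4 := Int.lt_floor_add_one (Q.v k w.1 i / S.dl 1 k)
  rw [le_div_iff₀ hδ] at h3
  rw [div_lt_iff₀ hδ] at h4
  have e1 : fqv Q k w i = S.dl 1 k * ((⌊Q.v k w.1 i / S.dl 1 k⌋ : ℝ) + ((w.2 i : ℕ) : ℝ) / fM S k) := rfl
  rw [e1, abs_le]
  constructor <;> nlinarith

/-- THE POINT WITH FRESH DIGITS -/
def fq : (fsp S M).VV M where
  v := fun k w i => fqv Q k w i
  bd := by
    obtain ⟨K, hK, hQ⟩ := Q.bd
    refine ⟨fun k => K k + 1, ?_, ?_⟩
    · exact hK.add (S.Sub_const zero_le_one)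
    · filter_upwards [hQ] with k hk w hw i
      have h1 := hk w.1 ((fpj S M).supp k w hw) i
      have h2 := fqv_near Q k w i
      have h3 : S.dl 1 k ≤ 1 := Pool.Agent.Helper89.LX.dl_one_le S k
      have h4 := abs_add_le (fqv Q k w i - Q.v k w.1 i) (Q.v k w.1 i)
      rw [sub_add_cancel] at h4
      linarith

lemma fq_near (k : ℕ) (w : ((fsp S M).F k).Ω) (i : Fin M) : |(fq Q).v k w i - Q.v k w.1 i| ≤ S.dl 1 k :=
  fqv_near Q k w i

lemma fq_cell (k : ℕ) (w : ((fsp S M).F k).Ω) : (fq Q).cellv 1 k w = Q.cellv 1 k w.1 := by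
  funext i
  have hδ := S.dl_pos 1 k
  obtain ⟨h1, h2⟩ := fu_mem k w i
  show ⌊fqv Q k w i / S.dl 1 k⌋ = Q.cellv 1 k w.1 i
  unfold fqv
  rw [mul_div_cancel_left₀ _ hδ.ne', Int.floor_eq_iff]
  constructor <;> linarith

/-- ENTROPY of the fine cells -/
theorem fq_ent (B : ∀ k, Setoid (S.F k).Ω) {ε : ℝ} (hε : 0 < ε) : ∀ᶠ k in UF,
    (S.F k).e (Setoid.ker (Q.cellv 1 k)) (B k ⊓ (S.F k).Z) + 2 * M * (S.F k).n ≤
      ((fsp S M).F k).e (Setoid.ker ((fq Q).cellv 3 k)) ((fpj S M).pb B k ⊓ ((fsp S M).F k).Z) + ε * (S.F k).n := by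
  have hl := S.div_n_tendsto (M * Real.logb 2 (2 + 1))
  filter_upwards [hl.eventually (gt_mem_nhds hε)] with k hk
  have hn := (S.F k).pos
  rw [div_lt_iff₀ hn] at hk
  set F' : FSp := (fsp S M).F k with hF'
  set G : Type := Fin M → Fin (fM S k) with hG
  set B₀ : Setoid (S.F k).Ω := B k ⊓ (S.F k).Z with hB₀
  set B' : Setoid F'.Ω := (fpj S M).pb B k ⊓ F'.Z with hB'
  have eB : B' = Setoid.comap Prod.fst B₀ := rfl
  set A1 : Setoid F'.Ω := Setoid.comap Prod.fst (Setoid.ker (Q.cellv 1 k)) with hA1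
  set N : F'.Ω → Fin M → ℤ := fun w i => Q.cellv 1 k w.1 i * fM S k + ((w.2 i : ℕ) : ℤ) with hN
  have hfM : (0 : ℝ) < fM S k := by exact_mod_cast fM_pos S k
  have h1 : F'.e A1 B' = (S.F k).e (Setoid.ker (Q.cellv 1 k)) B₀ := (fpj S M).e_comap k _ _
  have h2 : F'.e (Setoid.ker Prod.snd) (A1 ⊓ B') = Real.logb 2 (Fintype.card G) :=
    fu_e (S.F k) G (Setoid.ker (Q.cellv 1 k) ⊓ B₀)
  have h3 := F'.e_chain A1 (Setoid.ker Prod.snd) B'
  have h4 : F'.e (A1 ⊓ Setoid.ker Prod.snd) B' ≤ F'.e (Setoid.ker N) B' := by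
    apply F'.e_mono
    intro w w' _ _ h _
    have h5 : ∀ i, Q.cellv 1 k w.1 i * fM S k + ((w.2 i : ℕ) : ℤ) = Q.cellv 1 k w'.1 i * fM S k + ((w'.2 i : ℕ) : ℤ) :=
      fun i => congrFun h i
    have h6 : ∀ (c : ℤ) (g : Fin (fM S k)), (c * fM S k + ((g : ℕ) : ℤ)) / (fM S k : ℤ) = c := by
      intro c g
      have hp : (0 : ℤ) < fM S k := by exact_mod_cast fM_pos S k
      rw [add_comm, Int.add_mul_ediv_right _ _ hp.ne', Int.ediv_eq_zero_of_lt (by positivity) (by exact_mod_cast g.2),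
        zero_add]
    have h7 : ∀ i, Q.cellv 1 k w.1 i = Q.cellv 1 k w'.1 i := by
      intro i
      have := congrArg (fun z => z / (fM S k : ℤ)) (h5 i)
      rwa [h6, h6] at this
    refine ⟨funext h7, ?_⟩
    show w.2 = w'.2
    funext i
    have h8 := h5 i
    rw [h7 i] at h8
    have h9 : ((w.2 i : ℕ) : ℤ) = ((w'.2 i : ℕ) : ℤ) := by linarith
    exact Fin.ext (by exact_mod_cast h9)
  have h5 := F'.e_triangle (Setoid.ker N) (Setoid.ker ((fq Q).cellv 3 k)) B'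
  have h6 : F'.e (Setoid.ker N) (Setoid.ker ((fq Q).cellv 3 k) ⊓ B') ≤ M * Real.logb 2 (2 + 1) := by
    apply F'.e_int_le N _ 2 (by norm_num)
    intro w w' _ _ h i
    have hδ := S.dl_pos 1 k
    have hδ3 := S.dl_pos 3 k
    have h7 : |(fq Q).v k w i - (fq Q).v k w' i| ≤ S.dl 3 k :=
      abs_sub_le_of_floor_eq hδ3 (congrFun h.1 i)
    have h8 : ∀ w : F'.Ω, (fq Q).v k w i = S.dl 1 k / fM S k * (N w i : ℝ) := by
      intro w
      have e1 : (fq Q).v k w i = S.dl 1 k * (Q.cellv 1 k w.1 i + ((w.2 i : ℕ) : ℝ) / fM S k) := rfl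
      rw [e1]
      simp only [hN]
      push_cast
      field_simp
    rw [h8, h8, ← mul_sub, abs_mul, abs_of_pos (by positivity), div_mul_eq_mul_div, div_le_iff₀ hfM] at h7
    have h9 : (fM S k : ℝ) ≤ 2 ^ (2 * (S.F k).n) + 1 := (Nat.ceil_lt_add_one (by positivity)).le
    have h10 : S.dl 3 k * (fM S k : ℝ) ≤ S.dl 1 k * 2 := by
      have h11 : S.dl 3 k * (2 ^ (2 * (S.F k).n)) = S.dl 1 k := by
        unfold Sp.dl
        rw [← Real.rpow_add (by norm_num)]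
        congr 1
        ring
      have h12 : S.dl 3 k ≤ S.dl 1 k := S.dl_anti (by norm_num) k
      nlinarith
    have h13 : S.dl 1 k * |(N w i : ℝ) - N w' i| ≤ S.dl 1 k * 2 := h7.trans h10
    exact le_of_mul_le_mul_left h13 hδ
  have h7 : 2 * M * (S.F k).n ≤ Real.logb 2 (Fintype.card G) := by
    have e1 : (Fintype.card G : ℝ) = (fM S k : ℝ) ^ M := by
      have e3 : Fintype.card (Fin M → Fin (fM S k)) = (fM S k) ^ M := by
        rw [Fintype.card_fun, Fintype.card_fin, Fintype.card_fin]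
      show ((Fintype.card (Fin M → Fin (fM S k)) : ℕ) : ℝ) = _
      rw [e3]
      push_cast
      rfl
    rw [e1, ← Real.rpow_natCast, Real.logb_rpow_eq_mul_logb_of_pos hfM]
    have e2 : 2 * (S.F k).n ≤ Real.logb 2 (fM S k) := by
      have e4 : 2 * (S.F k).n = Real.logb 2 (2 ^ (2 * (S.F k).n)) := by rw [Real.logb_rpow (by norm_num) (by norm_num)]
      rw [e4]
      exact Real.logb_le_logb_of_le (by norm_num) (by positivity) (Nat.le_ceil _)
    have e5 := mul_le_mul_of_nonneg_left e2 (Nat.cast_nonneg M : (0 : ℝ) ≤ M)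
    linarith
  linarith

end

end Pool.Agent.Helper76.THK
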