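import Pool.Agent.Helper76.THK.Cnt

/-! FULLNESS OF THE ROWS: `M` polynomials of a point, known to `V`, with gradient determinant `2 ^ (w n)`, are full over `V`
if the fine cells of the point have (over `V`) the entropy `(3 M - E w) n`. -/

set_option autoImplicit false

namespace Pool.Agent.Helper76.THK

open Finset Filter Topology Matrix Metric Pool.Agent.Helper69.RK Pool.Agent.Helper31.EC Pool.Agent.Helper31.EC.Sp
open Pool.Agent.Helper95.LF (PdM)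
open Pool.Agent.Helper40.EL
open Pool.Agent.Helper3.LF Pool.Agent.Helper84.MT
open Pool.Agent.Helper89.LX (dot_self_nonneg sum_mul_le Sub_pow')
open Pool.Agent.Helper76.RL (jac)
open Pool.Agent.Helper63.FRT

noncomputable section

variable {T : Sp} {M D : ℕ}

lemma sub_pow {K : ℕ → ℝ} (hK : T.Sub K) (m : ℕ) : T.Sub (fun k => K k ^ m) := Sub_pow' hK m

theorem rows_cnt (hD : 1 ≤ D) (X : T.VV M) (V : ∀ k, Setoid (T.F k).Ω)
    (ψ : ∀ k, (T.F k).Ω → Fin M → MvPolynomial (Fin M) ℝ)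
    (deg : ∀ᶠ k in UF, ∀ ω, (T.F k).μ ω ≠ 0 → ∀ j, (ψ k ω j).totalDegree ≤ D)
    (ms : ∀ᶠ k in UF, ∀ ω ω', (T.F k).μ ω ≠ 0 → (T.F k).μ ω' ≠ 0 → (T.F k).Z ω ω' → V k ω ω' → ψ k ω = ψ k ω')
    (Y : T.VV M) (E : ∀ k, (T.F k).Ω → Prop) (hE : Typ E) (K : ℕ → ℝ) (hK : T.Sub K)
    (w : ∀ k, (T.F k).Ω → ℝ) (hw : ∀ᶠ k in UF, ∀ ω, (T.F k).μ ω ≠ 0 → 0 ≤ w k ω ∧ w k ω ≤ M)
    (hY : ∀ᶠ k in UF, ∀ ω, (T.F k).μ ω ≠ 0 → E k ω → ∀ j, Y.v k ω j = MvPolynomial.eval (X.v k ω) (ψ k ω j))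
    (hN : ∀ᶠ k in UF, ∀ ω, (T.F k).μ ω ≠ 0 → E k ω → ∀ j (l : Fin M → Fin (D + 1)),
      |MvPolynomial.eval (nodp D (X.v k ω) (T.dl 3 k) l) (ψ k ω j) - MvPolynomial.eval (X.v k ω) (ψ k ω j)| ≤
        K k * T.dl 1 k)
    (hJ : ∀ᶠ k in UF, ∀ ω, (T.F k).μ ω ≠ 0 → E k ω →
      2 ^ (2 * w k ω * (T.F k).n) ≤ K k * (jac (ψ k ω) (X.v k ω)).det ^ 2) {ε : ℝ} (hε : 0 < ε) :
    ∀ᶠ k in UF, (T.F k).e (Setoid.ker (X.cellv 3 k)) (V k ⊓ Setoid.ker (Y.cellv 1 k) ⊓ (T.F k).Z) +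
      (T.F k).n * ∑ ω, (T.F k).μ ω * w k ω ≤ (2 * M + ε) * (T.F k).n := by
  obtain ⟨K1, hK1, hX⟩ := X.bd
  set K0 : ℕ → ℝ := fun k => nn M D * Fintype.card (Mon M D) * (K1 k + 1) ^ (2 * D) +
      Fintype.card (Fin M → Fin (D + 1)) * (M * (K k + 1) ^ 2) + K k with hK0
  have hnn := nn_one M D
  have hS : T.Sub K0 := by
    refine (Sp.Sub.add (Sp.Sub.mul (T.Sub_const (by positivity)) (sub_pow (hK1.add (T.Sub_const zero_le_one)) _))
      (Sp.Sub.mul (T.Sub_const (by positivity)) (Sp.Sub.mul (T.Sub_const (by positivity))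
        (sub_pow (hK.add (T.Sub_const zero_le_one)) _)))).add hK
  set A : ∀ k, (T.F k).Ω → Matrix (Mon M D) (Mon M D) ℝ := fun k ω =>
    Brw D ((T.dl 1 k)⁻¹) (ψ k ω) (fun j => T.dl 1 k * Y.cellv 1 k ω j) with hA
  have h1 := cnt_fc hD X (s := 3) (by norm_num) (fun k => V k ⊓ Setoid.ker (Y.cellv 1 k)) A
    (Eventually.of_forall fun k ω _ => ⟨Brw_symm _ _ _, Brw_one _ _ _⟩) (by
      filter_upwards [ms] with k hk ω ω' a b c d
      have e1 := hk ω ω' a b c d.1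
      have e2 : Y.cellv 1 k ω = Y.cellv 1 k ω' := d.2
      simp only [hA]
      rw [e1, e2]) E hE K0 hS (fun k ω => M + w k ω) (by
      filter_upwards [hw] with k hk ω hω
      have := hk ω hω
      have h0 : (0 : ℝ) ≤ M := Nat.cast_nonneg M
      constructor <;> linarith [this.1, this.2]) (by
      filter_upwards [deg, hX, hK1.1, hK.1, hY, hN] with k a1 a2 a3 a4 a5 a6 ω hω hEω
      have hδ := T.dl_pos 1 k
      have h3 : T.dl 3 k ≤ 1 := by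
        rw [← T.dl_zero k]
        exact T.dl_anti (by norm_num) k
      have h4 := Brw_phi ((T.dl 1 k)⁻¹) (ψ k ω) (fun j => T.dl 1 k * Y.cellv 1 k ω j) (a1 ω hω)
        (r := T.dl 3 k) (R := K1 k + 1) (B := (K k + 1) ^ 2) (T.dl_pos 3 k).le (by linarith) (X.v k ω)
        (fun i => add_le_add (a2 ω hω i) h3) (fun j l => by
          have h5 := a6 ω hω hEω j l
          rw [← a5 ω hω hEω j] at h5
          have h6 : |Y.v k ω j - T.dl 1 k * Y.cellv 1 k ω j| ≤ T.dl 1 k :=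
            Pool.Agent.Helper76.DIM.near_floor (Y.v k ω j) (T.dl 1 k) hδ
          have h7 : |MvPolynomial.eval (nodp D (X.v k ω) (T.dl 3 k) l) (ψ k ω j) - T.dl 1 k * Y.cellv 1 k ω j| ≤
              (K k + 1) * T.dl 1 k := by
            have := abs_add_le (MvPolynomial.eval (nodp D (X.v k ω) (T.dl 3 k) l) (ψ k ω j) - Y.v k ω j)
              (Y.v k ω j - T.dl 1 k * Y.cellv 1 k ω j)
            rw [sub_add_sub_cancel] at this
            linarith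
          rw [← sq_abs, abs_mul, abs_of_pos (inv_pos.mpr hδ)]
          apply pow_le_pow_left₀ (by positivity)
          rw [inv_mul_le_iff₀ hδ]
          linarith)
      simp only [hA, hK0]
      linarith) (by
      filter_upwards [deg, hJ, hK.1, hK1.1] with k a1 a2 a3 a4 ω hω hEω
      have hδ := T.dl_pos 1 k
      have h4 := Brw_GQ ((T.dl 1 k)⁻¹) (ψ k ω) (fun j => T.dl 1 k * Y.cellv 1 k ω j) (a1 ω hω) (T.dl 3 k) (X.v k ω)
      have h5 : (2 : ℝ) ^ (2 * (M + w k ω) * (T.F k).n) = ((T.dl 1 k)⁻¹) ^ (2 * M) * 2 ^ (2 * w k ω * (T.F k).n) := by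
        rw [dl_inv, one_mul, ← Real.rpow_natCast, ← Real.rpow_mul (by norm_num), ← Real.rpow_add (by norm_num)]
        congr 1
        push_cast
        ring
      rw [h5]
      have h6 : ((T.dl 1 k)⁻¹) ^ (2 * M) * 2 ^ (2 * w k ω * (T.F k).n) ≤
          ((T.dl 1 k)⁻¹) ^ (2 * M) * (K k * (jac (ψ k ω) (X.v k ω)).det ^ 2) :=
        mul_le_mul_of_nonneg_left (a2 ω hω hEω) (by positivity)
      refine h6.trans ?_
      have h7 : K k ≤ K0 k := by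
        simp only [hK0]
        have : 0 ≤ K1 k + 1 := by linarith
        have h8 : (0 : ℝ) ≤ nn M D * Fintype.card (Mon M D) * (K1 k + 1) ^ (2 * D) := by positivity
        have h9 : (0 : ℝ) ≤ Fintype.card (Fin M → Fin (D + 1)) * (M * (K k + 1) ^ 2) := by positivity
        linarith
      calc ((T.dl 1 k)⁻¹) ^ (2 * M) * (K k * (jac (ψ k ω) (X.v k ω)).det ^ 2) =
          K k * (((T.dl 1 k)⁻¹) ^ (2 * M) * (jac (ψ k ω) (X.v k ω)).det ^ 2) := by ring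
        _ ≤ K0 k * (((T.dl 1 k)⁻¹) ^ (2 * M) * (jac (ψ k ω) (X.v k ω)).det ^ 2) :=
          mul_le_mul_of_nonneg_right h7 (by positivity)
        _ ≤ _ := mul_le_mul_of_nonneg_left h4 (a3.trans h7)) hε
  filter_upwards [h1] with k hk
  have e1 : ∑ ω, (T.F k).μ ω * (M + w k ω) = M + ∑ ω, (T.F k).μ ω * w k ω := by
    rw [Finset.sum_congr rfl (fun ω _ => mul_add _ _ _), Finset.sum_add_distrib, ← Finset.sum_mul]
    have : ∑ ω, (T.F k).μ ω = 1 := (T.F k).ms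
    rw [this, one_mul]
  rw [e1] at hk
  nlinarith

/-- FULLNESS OF THE ROWS -/
theorem rows_full (hD : 1 ≤ D) (X : T.VV M) (V : ∀ k, Setoid (T.F k).Ω)
    (ψ : ∀ k, (T.F k).Ω → Fin M → MvPolynomial (Fin M) ℝ)
    (deg : ∀ᶠ k in UF, ∀ ω, (T.F k).μ ω ≠ 0 → ∀ j, (ψ k ω j).totalDegree ≤ D)
    (ms : ∀ᶠ k in UF, ∀ ω ω', (T.F k).μ ω ≠ 0 → (T.F k).μ ω' ≠ 0 → (T.F k).Z ω ω' → V k ω ω' → ψ k ω = ψ k ω')
    (Y : T.VV M) (E : ∀ k, (T.F k).Ω → Prop) (hE : Typ E) (K : ℕ → ℝ) (hK : T.Sub K)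
    (w : ∀ k, (T.F k).Ω → ℝ) (hw : ∀ᶠ k in UF, ∀ ω, (T.F k).μ ω ≠ 0 → 0 ≤ w k ω ∧ w k ω ≤ M)
    (hY : ∀ᶠ k in UF, ∀ ω, (T.F k).μ ω ≠ 0 → E k ω → ∀ j, Y.v k ω j = MvPolynomial.eval (X.v k ω) (ψ k ω j))
    (hN : ∀ᶠ k in UF, ∀ ω, (T.F k).μ ω ≠ 0 → E k ω → ∀ j (l : Fin M → Fin (D + 1)),
      |MvPolynomial.eval (nodp D (X.v k ω) (T.dl 3 k) l) (ψ k ω j) - MvPolynomial.eval (X.v k ω) (ψ k ω j)| ≤
        K k * T.dl 1 k)
    (hJ : ∀ᶠ k in UF, ∀ ω, (T.F k).μ ω ≠ 0 → E k ω →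
      2 ^ (2 * w k ω * (T.F k).n) ≤ K k * (jac (ψ k ω) (X.v k ω)).det ^ 2)
    (hfu : ∀ ε : ℝ, 0 < ε → ∀ᶠ k in UF, (3 * M - ε) * (T.F k).n ≤
      (T.F k).e (Setoid.ker (X.cellv 3 k)) (V k ⊓ (T.F k).Z) + (T.F k).n * ∑ ω, (T.F k).μ ω * w k ω) :
    Tendsto (fun k => h (fc (Setoid.ker (Y.cellv 1 k))) (fc (V k)) / (T.F k).n) UF (𝓝 M) := by
  obtain ⟨K2, hK2, hYb⟩ := Y.bd
  rw [Metric.tendsto_nhds]
  intro ε hε
  have h2 := h_celm_le Y (fun _ => 0) (fun _ => 1) (fun _ => zero_le_one) V (fun k => 2 * K2 k)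
    ((T.Sub_const zero_le_two).mul hK2) (by
    filter_upwards [hYb] with k hk ω ω' a b _ _ i
    rw [T.dl_zero, mul_one]
    have h3 := hk ω a i
    have h4 := hk ω' b i
    have h5 := abs_sub (Y.v k ω i) (Y.v k ω' i)
    linarith) (ε / 2) (by linarith)
  filter_upwards [h2, rows_cnt hD X V ψ deg ms Y E hE K hK w hw hY hN hJ (show 0 < ε / 4 by linarith),
    hfu (ε / 4) (by linarith)] with k a a' a''
  have hn : 0 < (T.F k).n := (T.F k).pos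
  rw [Real.dist_eq, abs_lt]
  have e1 : ∑ _i : Fin M, ((1 : ℝ) - 0) = M := by simp
  rw [celm_const, e1] at a
  have h3 := (T.F k).e_triangle (Setoid.ker (X.cellv 3 k)) (Setoid.ker (Y.cellv 1 k)) (V k ⊓ (T.F k).Z)
  have e2 : Setoid.ker (Y.cellv 1 k) ⊓ (V k ⊓ (T.F k).Z) = V k ⊓ Setoid.ker (Y.cellv 1 k) ⊓ (T.F k).Z := by ac_rfl
  rw [e2] at h3
  have h4 : ((M : ℝ) - ε / 2) ≤ h (fc (Setoid.ker (Y.cellv 1 k))) (fc (V k)) / (T.F k).n := by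
    rw [le_div_iff₀ hn, h_fc]
    nlinarith
  constructor <;> linarith

end

end Pool.Agent.Helper76.THK
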