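import Pool.Agent.Helper76.THK.Fdg

/-! SELECTION OF THE ROWS at a point near the point of the form: free coordinates and rows of the form with the largest
minor in the other columns. -/

set_option autoImplicit false

namespace Pool.Agent.Helper76.THK

open MvPolynomial Matrix
open Pool.Agent.Helper95.LF (PdM det_le_pow dv_add)
open Pool.Agent.Helper3.LF Pool.Agent.Helper84.MT
open Pool.Agent.Helper89.LX (dot_self_nonneg)
open Pool.Agent.Helper76.RL (fam fam_deg jac Rw cR cR_pos exists_minor trp pderiv_trp eval_trp cP cP_one mem_Reg)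
open Pool.Agent.Helper76.DIM (fac fac_spec)
open Pool.Agent.Helper76.PUR (qf_submatrix jac_X jac_fam mvt rows_bd cW cW_one nRw)

noncomputable section

variable {M v q D : ℕ}

/-- the rows: coordinates `E ∘ inl`, rows `I` -/
def rho (E e0 : Fin v ⊕ Fin q ≃ Fin M) (I : Fin q → Rw M D) : Fin M → Rw M D :=
  fun a => Sum.elim (fun i => Sum.inr (E (Sum.inl i))) I (e0.symm a)

/-- the parameters as polynomials of the point -/
def psi (A : Matrix (Mon M D) (Mon M D) ℝ) (r : ℝ) (E e0 : Fin v ⊕ Fin q ≃ Fin M) (I : Fin q → Rw M D) :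
    Fin M → MvPolynomial (Fin M) ℝ := fun a => fam (fac A) r (rho E e0 I a)

variable (A : Matrix (Mon M D) (Mon M D) ℝ) (r : ℝ) (E e0 : Fin v ⊕ Fin q ≃ Fin M) (I : Fin q → Rw M D)

lemma psi_deg (hD : 1 ≤ D) (a : Fin M) : (psi A r E e0 I a).totalDegree ≤ D := fam_deg hD _ _ _

lemma psi_inl (i : Fin v) : psi A r E e0 I (e0 (Sum.inl i)) = X (E (Sum.inl i)) := by
  unfold psi rho
  rw [Equiv.symm_apply_apply]
  rfl

lemma psi_inr (j : Fin q) : psi A r E e0 I (e0 (Sum.inr j)) = fam (fac A) r (I j) := by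
  unfold psi rho
  rw [Equiv.symm_apply_apply]
  rfl

lemma psi_det (x : Fin M → ℝ) : (jac (psi A r E e0 I) x).det ^ 2 =
    (((jac (fam (fac A) r) x).submatrix I (fun l => E (Sum.inr l))).det) ^ 2 := by
  set G := jac (psi A r E e0 I) x with hG
  have h1 : |(G.submatrix e0 E).det| = |G.det| := Matrix.abs_det_submatrix_equiv_equiv e0 E G
  have h2 : G.submatrix e0 E = Matrix.fromBlocks 1 0
      (Matrix.of fun (j : Fin q) (i : Fin v) => eval x (pderiv (E (Sum.inl i)) (fam (fac A) r (I j))))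
      ((jac (fam (fac A) r) x).submatrix I (fun l => E (Sum.inr l))) := by
    ext s t
    rw [Matrix.submatrix_apply, hG]
    rcases s with i | j
    · show eval x (pderiv (E t) (psi A r E e0 I (e0 (Sum.inl i)))) = _
      rw [psi_inl, pderiv_X]
      rcases t with i' | j'
      · rw [Matrix.fromBlocks_apply₁₁, Matrix.one_apply]
        by_cases h : i = i'
        · subst h
          simp
        · rw [if_neg h, Pi.single_eq_of_ne (fun h' => h (Sum.inl_injective (E.injective h'))), map_zero]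
      · rw [Matrix.fromBlocks_apply₁₂, Matrix.zero_apply,
          Pi.single_eq_of_ne (fun h' => Sum.inl_ne_inr (E.injective h')), map_zero]
    · show eval x (pderiv (E t) (psi A r E e0 I (e0 (Sum.inr j)))) = _
      rw [psi_inr]
      rcases t with i' | j'
      · rfl
      · rfl
  rw [← sq_abs, ← h1, h2, Matrix.det_fromBlocks_zero₁₂, Matrix.det_one, one_mul, sq_abs]

variable {A r}

/-- the rows on the cell -/
lemma psi_bd (hA : PdM A) {K : ℝ} (hr : 0 < r) (hr1 : r ≤ 1) (hK1 : 1 ≤ K) {x0 : Fin M → ℝ} (hφ : phi r A x0 ≤ K)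
    (hx0 : ∀ i, |x0 i| ≤ K) {x : Fin M → ℝ} (hx : ∀ i, |x i - x0 i| ≤ r) (a : Fin M) :
    |eval x (psi A r E e0 I a)| ≤ cW M D K := by
  have e1 := fac_spec hA
  exact mem_Reg (C := fac A) (by rw [← e1]; exact hA) hr hr1 hK1 (p := x0)
    (x := x) (by rw [← e1]; exact hφ) hx0 hx _

/-- constant of the variation of the rows -/
def cV1 (M D : ℕ) (K : ℝ) : ℝ := M * (Cm M D * 2 ^ (M * D + D) * cW M D K)

lemma cV1_nonneg {K : ℝ} (hK1 : 1 ≤ K) : 0 ≤ cV1 M D K := by
  unfold cV1
  have := cW_one M D hK1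
  have := Cm_one M D
  positivity

/-- variation of the rows on a small cell -/
lemma psi_diff (hD : 1 ≤ D) (hA : PdM A) {K : ℝ} (hr : 0 < r) (hr1 : r ≤ 1) (hK1 : 1 ≤ K) {x0 : Fin M → ℝ}
    (hφ : phi r A x0 ≤ K) (hx0 : ∀ i, |x0 i| ≤ K) {x : Fin M → ℝ} (hx : ∀ i, |x i - x0 i| ≤ r) {r' : ℝ} (hr'0 : 0 ≤ r')
    (hr' : r' ≤ r) (l : Fin M → Fin (D + 1)) (a : Fin M) :
    r * |eval (nodp D x r' l) (psi A r E e0 I a) - eval x (psi A r E e0 I a)| ≤ r' * cV1 M D K := by
  set f := psi A r E e0 I a with hf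
  obtain ⟨t, ht0, ht1, h⟩ := mvt f x (nodp D x r' l)
  have hn : ∀ b, |nodp D x r' l b - x b| ≤ r' := by
    intro b
    show |x b + r' * nod D (l b) - x b| ≤ r'
    have e1 : x b + r' * nod D (l b) - x b = r' * nod D (l b) := by ring
    rw [e1, abs_mul, abs_of_nonneg hr'0, abs_of_nonneg (nod_nonneg D _)]
    exact mul_le_of_le_one_right hr'0 (nod_le D _ (Nat.lt_succ_iff.mp (l b).2))
  have hcell : ∀ j : Fin M → Fin (D + 1), |eval (nodp D x0 r j) f| ≤ cW M D K := fun j =>
    rows_bd hA hr hr1 hK1 x0 hφ hx0 _ j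
  have hder : ∀ b, r * |eval (fun a => x a + t * (nodp D x r' l a - x a)) (pderiv b f)| ≤
      Cm M D * 2 ^ (M * D + D) * cW M D K := by
    intro b
    apply cell_der D f (psi_deg A r E e0 I hD a) x0 r 2 (cW M D K) hr (by norm_num) hcell
    intro i
    have e1 : x i + t * (nodp D x r' l i - x i) - x0 i = (x i - x0 i) + t * (nodp D x r' l i - x i) := by ring
    rw [e1]
    refine (abs_add_le _ _).trans ?_
    rw [abs_mul, abs_of_pos ht0]
    have h3 := hn i
    have h4 := abs_nonneg (nodp D x r' l i - x i)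
    have h5 := hx i
    nlinarith
  rw [h]
  have h1 : ∀ b ∈ Finset.univ, |(nodp D x r' l b - x b) *
      eval (fun a => x a + t * (nodp D x r' l a - x a)) (pderiv b f)| ≤
      r' * (Cm M D * 2 ^ (M * D + D) * cW M D K / r) := by
    intro b _
    rw [abs_mul]
    apply mul_le_mul (hn b) _ (abs_nonneg _) hr'0
    rw [le_div_iff₀ hr, mul_comm]
    exact hder b
  have h2 := (Finset.abs_sum_le_sum_abs (fun b => (nodp D x r' l b - x b) *
    eval (fun a => x a + t * (nodp D x r' l a - x a)) (pderiv b f)) Finset.univ).trans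
    (Finset.sum_le_card_nsmul _ _ _ h1)
  rw [Finset.card_univ, Fintype.card_fin, nsmul_eq_mul] at h2
  have h3 := mul_le_mul_of_nonneg_left h2 hr.le
  refine h3.trans (le_of_eq ?_)
  unfold cV1
  field_simp

/-- quadratic form of a principal block -/
lemma qf_block (E : Fin v ⊕ Fin q ≃ Fin M) (B : Matrix (Fin M) (Fin M) ℝ) (z : Fin q → ℝ) :
    z ⬝ᵥ (B.submatrix (fun j => E (Sum.inr j)) (fun j => E (Sum.inr j)) *ᵥ z) =
      (fun a => Sum.elim (fun _ => 0) z (E.symm a)) ⬝ᵥ (B *ᵥ fun a => Sum.elim (fun _ => 0) z (E.symm a)) := by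
  rw [← qf_submatrix E B (Sum.elim (fun _ => (0 : ℝ)) z)]
  unfold dotProduct mulVec dotProduct
  rw [Fintype.sum_sum_type]
  simp only [Sum.elim_inl, zero_mul, Finset.sum_const_zero, zero_add, Sum.elim_inr, Fintype.sum_sum_type, mul_zero]
  rfl

lemma pd_block (E : Fin v ⊕ Fin q ≃ Fin M) {B : Matrix (Fin M) (Fin M) ℝ} (hB : PdM B) :
    PdM (B.submatrix (fun j => E (Sum.inr j)) (fun j => E (Sum.inr j))) := by
  refine ⟨?_, fun z hz => ?_⟩
  · unfold Matrix.IsSymm
    rw [Matrix.transpose_submatrix, hB.1.eq]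
  · show 0 < z ⬝ᵥ (B.submatrix (fun j => E (Sum.inr j)) (fun j => E (Sum.inr j)) *ᵥ z)
    rw [qf_block]
    apply hB.2
    intro h
    apply hz
    funext j
    have := congrFun h (E (Sum.inr j))
    simpa using this

/-- constant of the selection -/
def cS (M D q : ℕ) : ℝ := (cQ M D * 2 ^ (2 * D)) ^ q * cR q (nRw M D)

lemma cS_pos (M D q : ℕ) : 0 < cS M D q := by
  unfold cS
  have := cQ_one M D
  have := cR_pos q (nRw M D)
  positivity

/-- SELECTION of the rows at `x`, from the minor at `x0` -/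
theorem exists_sel (E : Fin v ⊕ Fin q ≃ Fin M) (hA : PdM A) (hr : 0 < r) {x0 x : Fin M → ℝ}
    (hx : ∀ i, |x i - x0 i| ≤ r) : ∃ I : Fin q → Rw M D,
      ((1 + Jq r A x0).submatrix (fun j => E (Sum.inr j)) (fun j => E (Sum.inr j))).det ≤
        cS M D q * (((jac (fam (fac A) r) x).submatrix I (fun l => E (Sum.inr l))).det) ^ 2 := by
  classical
  set τ : Fin q → Fin M := fun j => E (Sum.inr j) with hτ
  have hc : 1 ≤ cQ M D * 2 ^ (2 * D) :=
    one_le_mul_of_one_le_of_one_le (cQ_one M D) (one_le_pow₀ (by norm_num))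
  have h0 : ∀ y : Fin M → ℝ, y ⬝ᵥ ((1 + Jq r A x0) *ᵥ y) ≤ (cQ M D * 2 ^ (2 * D)) * (y ⬝ᵥ ((1 + Jq r A x) *ᵥ y)) := by
    intro y
    rw [dv_add, dv_add, Matrix.one_mulVec, mul_add]
    have h1 := Jq_comp' A hA r r 2 hr hr.le (by norm_num) x x0 (fun i => by
      have := hx i
      rw [abs_sub_comm] at this
      linarith) y
    have h2 := dot_self_nonneg y
    exact add_le_add (by nlinarith) h1
  have h1 : ((1 + Jq r A x0).submatrix τ τ).det ≤ (cQ M D * 2 ^ (2 * D)) ^ q * ((1 + Jq r A x).submatrix τ τ).det := by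
    have h2 := det_le_pow (pd_block E (one_Jq_pd r hA.1 hA.nonneg x)) (pd_block E (one_Jq_pd r hA.1 hA.nonneg x0))
      (K := cQ M D * 2 ^ (2 * D)) (by linarith) (fun z => by
        rw [qf_block, qf_block]
        exact h0 _)
    rwa [Fintype.card_fin] at h2
  set B : Matrix (Rw M D) (Fin q) ℝ := (jac (fam (fac A) r) x).submatrix id τ with hB
  have hBB : B.transpose * B = (1 + Jq r A x).submatrix τ τ := by
    have h1 := jac_fam (fac A) r x
    rw [← fac_spec hA] at h1
    rw [← h1]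
    ext a b
    rfl
  have hτi : Function.Injective τ := fun a b h => Sum.inr_injective (E.injective h)
  have hI0 : (B.submatrix (fun j => (Sum.inr (τ j) : Rw M D)) id).det ≠ 0 := by
    have e1 : B.submatrix (fun j => (Sum.inr (τ j) : Rw M D)) id = 1 := by
      ext a b
      rw [Matrix.submatrix_apply, hB, Matrix.submatrix_apply, id, id, jac_X, Matrix.one_apply]
      by_cases h : a = b
      · rw [if_pos h, if_pos (by rw [h])]
      · rw [if_neg h, if_neg fun h' => h (hτi h')]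
    rw [e1, Matrix.det_one]
    exact one_ne_zero
  obtain ⟨I, hI, -⟩ := exists_minor B ⟨_, hI0⟩
  rw [hBB] at hI
  refine ⟨I, ?_⟩
  have e2 : B.submatrix I id = (jac (fam (fac A) r) x).submatrix I τ := by
    ext a b
    rfl
  rw [e2] at hI
  have h3 : 0 ≤ (cQ M D * 2 ^ (2 * D)) ^ q := by positivity
  refine h1.trans ((mul_le_mul_of_nonneg_left hI h3).trans (le_of_eq ?_))
  unfold cS nRw
  ring

end

end Pool.Agent.Helper76.THK
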