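import Pool.Agent.Helper76.THK.Sel
import Pool.Agent.Helper76.LG.Ldd
import Pool.Agent.Helper66.HK.E5

/-! THE THICK LEAF, part 1: one form whose hull is filled over `V`. After adding fresh digits to the point, `v` free
coordinates and `q` rows of the form are full over `V`, and the point is an exact root over them. -/

set_option autoImplicit false

namespace Pool.Agent.Helper76.THK

open Finset Filter Topology Matrix Metric Pool.Agent.Helper69.RK Pool.Agent.Helper31.EC Pool.Agent.Helper31.EC.Sp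
open Pool.Agent.Helper95.LF (PdM)
open Pool.Agent.Helper40.EL
open Pool.Agent.Helper3.LF Pool.Agent.Helper84.MT
open Pool.Agent.Helper89.LX (dot_self_nonneg sum_mul_le dl_one_le)
open Pool.Agent.Helper76.RL (jac fam Rw cP cP_one cR cR_pos)
open Pool.Agent.Helper63.FRT
open Pool.Agent.Helper76.DIM (fac fac_spec ent_fin)
open Pool.Agent.Helper76.PUR (cW cW_one exists_relR eval_aevalR)
open Pool.Agent.Helper76.LG

noncomputable section

variable {S : Sp} {M v q D : ℕ}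

/-- ONE FORM WHOSE HULL IS FILLED over `V`: `g` is a form of degree `D` in all coordinates, known to `V`, small at the point,
with a principal minor `2 ^ (2 w n)` of order `q` of `1 + J`, and `M - E w` is the rate of the cells of the point over `V` -/
structure ThkF (V : ∀ k, Setoid (S.F k).Ω) (Q : S.VV M) (v q : ℕ)
    (g : ∀ k, (S.F k).Ω → Matrix (Mon M D) (Mon M D) ℝ) (w : ∀ k, (S.F k).Ω → ℝ) : Prop where
  pd : ∀ᶠ k in UF, ∀ ω, (S.F k).μ ω ≠ 0 → PdM (g k ω)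
  ms : ∀ᶠ k in UF, ∀ ω ω', (S.F k).μ ω ≠ 0 → (S.F k).μ ω' ≠ 0 → (S.F k).Z ω ω' → V k ω ω' → g k ω = g k ω'
  sm : ∀ η : ℝ, 0 < η → Typ (fun k ω => phi (S.dl 1 k) (g k ω) (Q.v k ω) ≤ 2 ^ (η * (S.F k).n))
  w0 : ∀ᶠ k in UF, ∀ ω, (S.F k).μ ω ≠ 0 → 0 ≤ w k ω ∧ w k ω ≤ M
  big : ∀ η : ℝ, 0 < η → Typ (fun k ω => ∃ E : Fin v ⊕ Fin q ≃ Fin M, 2 ^ (2 * (w k ω - η) * (S.F k).n) ≤
    ((1 + Jq (S.dl 1 k) (g k ω) (Q.v k ω)).submatrix (fun j => E (Sum.inr j)) (fun j => E (Sum.inr j))).det)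
  fu : ∀ ε : ℝ, 0 < ε → ∀ᶠ k in UF, (M - ε) * (S.F k).n ≤
    (S.F k).e (Setoid.ker (Q.cellv 1 k)) (V k ⊓ (S.F k).Z) + (S.F k).n * ∑ ω, (S.F k).μ ω * w k ω

/-- the principal minor -/
def dmin (A : Matrix (Mon M D) (Mon M D) ℝ) (r : ℝ) (x : Fin M → ℝ) (E : Fin v ⊕ Fin q ≃ Fin M) : ℝ :=
  ((1 + Jq r A x).submatrix (fun j => E (Sum.inr j)) (fun j => E (Sum.inr j))).det

/-- the standard order -/
def e00 (hvq : v + q = M) : Fin v ⊕ Fin q ≃ Fin M := finSumFinEquiv.trans (finCongr hvq)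

lemma exists_Emx (hvq : v + q = M) (A : Matrix (Mon M D) (Mon M D) ℝ) (r : ℝ) (x : Fin M → ℝ) :
    ∃ E : Fin v ⊕ Fin q ≃ Fin M, ∀ E' : Fin v ⊕ Fin q ≃ Fin M, dmin A r x E' ≤ dmin A r x E := by
  have : Nonempty (Fin v ⊕ Fin q ≃ Fin M) := ⟨e00 hvq⟩
  exact Finite.exists_max (dmin A r x)

/-- the best columns -/
def Emx (hvq : v + q = M) (A : Matrix (Mon M D) (Mon M D) ℝ) (r : ℝ) (x : Fin M → ℝ) : Fin v ⊕ Fin q ≃ Fin M :=
  (exists_Emx hvq A r x).choose

lemma Emx_spec (hvq : v + q = M) (A : Matrix (Mon M D) (Mon M D) ℝ) (r : ℝ) (x : Fin M → ℝ) (E' : Fin v ⊕ Fin q ≃ Fin M) :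
    dmin A r x E' ≤ dmin A r x (Emx hvq A r x) := (exists_Emx hvq A r x).choose_spec E'

open Classical in
/-- the rows chosen at `x` from the form at `x0` -/
def Isel (A : Matrix (Mon M D) (Mon M D) ℝ) (r : ℝ) (x0 x : Fin M → ℝ) (E : Fin v ⊕ Fin q ≃ Fin M) : Fin q → Rw M D :=
  if h : ∃ I : Fin q → Rw M D, dmin A r x0 E ≤
      cS M D q * (((jac (fam (fac A) r) x).submatrix I (fun l => E (Sum.inr l))).det) ^ 2 then h.choose
    else fun _ => Sum.inl (Mon.zero M D, fun _ => 0)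

lemma Isel_spec {A : Matrix (Mon M D) (Mon M D) ℝ} (hA : PdM A) {r : ℝ} (hr : 0 < r) {x0 x : Fin M → ℝ}
    (hx : ∀ i, |x i - x0 i| ≤ r) (E : Fin v ⊕ Fin q ≃ Fin M) : dmin A r x0 E ≤
      cS M D q * (((jac (fam (fac A) r) x).submatrix (Isel A r x0 x E) (fun l => E (Sum.inr l))).det) ^ 2 := by
  have h : ∃ I : Fin q → Rw M D, dmin A r x0 E ≤
      cS M D q * (((jac (fam (fac A) r) x).submatrix I (fun l => E (Sum.inr l))).det) ^ 2 := exists_sel E hA hr hx
  unfold Isel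
  rw [dif_pos h]
  exact h.choose_spec

/-- clipping -/
def clp (B x : ℝ) : ℝ := max (-B) (min B x)

lemma clp_bd {B : ℝ} (hB : 0 ≤ B) (x : ℝ) : |clp B x| ≤ B := by
  unfold clp
  rw [abs_le]
  exact ⟨le_max_left _ _, max_le (by linarith) (min_le_left _ _)⟩

lemma clp_eq {B x : ℝ} (h : |x| ≤ B) : clp B x = x := by
  rw [abs_le] at h
  unfold clp
  rw [min_eq_right h.2, max_eq_right h.1]

/-- degree of the relation -/
def LR (M D : ℕ) : ℕ := max 1 (exists_relR M D).choose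

open Classical in
/-- the relation -/
def relp (M D : ℕ) (θ : Fin (M + 1) → MvPolynomial (Fin M) ℝ) : MvPolynomial (Fin (M + 1)) ℝ :=
  if h : ∃ H : MvPolynomial (Fin (M + 1)) ℝ, H ≠ 0 ∧ H.totalDegree ≤ LR M D ∧ MvPolynomial.aeval θ H = 0 then h.choose else 0

lemma relp_deg (θ : Fin (M + 1) → MvPolynomial (Fin M) ℝ) : (relp M D θ).totalDegree ≤ LR M D := by
  unfold relp
  split_ifs with h
  · exact h.choose_spec.2.1
  · rw [MvPolynomial.totalDegree_zero]
    exact Nat.zero_le _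

lemma relp_spec {θ : Fin (M + 1) → MvPolynomial (Fin M) ℝ} (hθ : ∀ i, (θ i).totalDegree ≤ D) :
    relp M D θ ≠ 0 ∧ MvPolynomial.aeval θ (relp M D θ) = 0 := by
  have h : ∃ H : MvPolynomial (Fin (M + 1)) ℝ, H ≠ 0 ∧ H.totalDegree ≤ LR M D ∧ MvPolynomial.aeval θ H = 0 := by
    obtain ⟨H, h1, h2, h3⟩ := (exists_relR M D).choose_spec θ hθ
    exact ⟨H, h1, h2.trans (le_max_right _ _), h3⟩
  unfold relp
  rw [dif_pos h]
  exact ⟨h.choose_spec.1, h.choose_spec.2.2⟩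

lemma relp_root (hD : 1 ≤ D) {ψ : Fin M → MvPolynomial (Fin M) ℝ} (hψ : ∀ a, (ψ a).totalDegree ≤ D) (p : Fin M)
    (x : Fin M → ℝ) : relp M D (Fin.cons (MvPolynomial.X p) ψ) ≠ 0 ∧
      MvPolynomial.eval (Fin.cons (x p) (fun a => MvPolynomial.eval x (ψ a)) : Fin (M + 1) → ℝ)
        (relp M D (Fin.cons (MvPolynomial.X p) ψ)) = 0 := by
  have hθ : ∀ i, ((Fin.cons (MvPolynomial.X p) ψ : Fin (M + 1) → MvPolynomial (Fin M) ℝ) i).totalDegree ≤ D := by
    intro i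
    refine Fin.cases ?_ (fun j => ?_) i
    · show (MvPolynomial.X p : MvPolynomial (Fin M) ℝ).totalDegree ≤ D
      rw [MvPolynomial.totalDegree_X]
      exact hD
    · exact hψ j
  obtain ⟨h1, h2⟩ := relp_spec hθ
  refine ⟨h1, ?_⟩
  have h3 := eval_aevalR x (Fin.cons (MvPolynomial.X p) ψ : Fin (M + 1) → MvPolynomial (Fin M) ℝ)
    (relp M D (Fin.cons (MvPolynomial.X p) ψ))
  rw [h2, map_zero] at h3
  have h4 : (fun i => MvPolynomial.eval x ((Fin.cons (MvPolynomial.X p) ψ : Fin (M + 1) → MvPolynomial (Fin M) ℝ) i)) =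
      (Fin.cons (x p) (fun a => MvPolynomial.eval x (ψ a)) : Fin (M + 1) → ℝ) := by
    funext i
    refine Fin.cases ?_ (fun j => ?_) i
    · show MvPolynomial.eval x (MvPolynomial.X p) = x p
      rw [MvPolynomial.eval_X]
    · rfl
  rw [h4] at h3
  exact h3.symm

/-- the code of the rows -/
abbrev Kt (M v q D : ℕ) : Type := (Fin v ⊕ Fin q ≃ Fin M) × (Fin q → Rw M D)

section

variable (hvq : v + q = M) (Q : S.VV M) (g : ∀ k, (S.F k).Ω → Matrix (Mon M D) (Mon M D) ℝ)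

/-- the columns at a point -/
def tE (k : ℕ) (ω : (S.F k).Ω) : Fin v ⊕ Fin q ≃ Fin M := Emx hvq (g k ω) (S.dl 1 k) (Q.v k ω)

/-- the code of the rows -/
def tcd (k : ℕ) (w : ((fsp S M).F k).Ω) : Kt M v q D :=
  (tE hvq Q g k w.1, Isel (g k w.1) (S.dl 1 k) (Q.v k w.1) ((fq Q).v k w) (tE hvq Q g k w.1))

/-- the parameters as polynomials -/
def tpsi (k : ℕ) (w : ((fsp S M).F k).Ω) : Fin M → MvPolynomial (Fin M) ℝ :=
  psi (g k w.1) (S.dl 1 k) (tcd hvq Q g k w).1 (e00 hvq) (tcd hvq Q g k w).2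

/-- the refined partition -/
def tV (V : ∀ k, Setoid (S.F k).Ω) : ∀ k, Setoid ((fsp S M).F k).Ω := fun k =>
  (fpj S M).pb V k ⊓ Setoid.ker (tcd hvq Q g k)

/-- the pinned coordinates -/
def tpin (k : ℕ) (w : ((fsp S M).F k).Ω) (p : Fin M) : Option (Fin M) :=
  Sum.elim (fun i => some (e00 hvq (Sum.inl i))) (fun _ => none) ((tcd hvq Q g k w).1.symm p)

lemma tpin_some {k : ℕ} {w : ((fsp S M).F k).Ω} {p j : Fin M} (h : tpin hvq Q g k w p = some j) :
    ∃ i : Fin v, j = e00 hvq (Sum.inl i) ∧ p = (tcd hvq Q g k w).1 (Sum.inl i) := by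
  unfold tpin at h
  rcases hs : (tcd hvq Q g k w).1.symm p with i | l
  · rw [hs] at h
    refine ⟨i, (Option.some.inj h).symm, ?_⟩
    rw [← hs, Equiv.apply_symm_apply]
  · rw [hs] at h
    exact absurd h (by simp)

lemma tpin_inl (k : ℕ) (w : ((fsp S M).F k).Ω) (i : Fin v) :
    tpin hvq Q g k w ((tcd hvq Q g k w).1 (Sum.inl i)) = some (e00 hvq (Sum.inl i)) := by
  unfold tpin
  rw [Equiv.symm_apply_apply]
  rfl

end

/-- THE POINT IS AN EXACT ROOT over `v` free coordinates and `q` rows, which are full over `V` -/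
theorem thk_root (hvq : v + q = M) (hD : 1 ≤ D) {V : ∀ k, Setoid (S.F k).Ω} {Q : S.VV M}
    {g : ∀ k, (S.F k).Ω → Matrix (Mon M D) (Mon M D) ℝ} {w : ∀ k, (S.F k).Ω → ℝ} (x : ThkF V Q v q g w) :
    ∃ (Y : (fsp S M).VV M) (f : Fin M → ∀ k, ((fsp S M).F k).Ω → MvPolynomial (Fin (M + 1)) ℝ),
      RootF (tV hvq Q g V) (fq Q) Y (tpin hvq Q g) 1 (LR M D) f (fun p k w => (fq Q).v k w p) := by
  classical
  obtain ⟨Kq, hKq, hQ⟩ := Q.bd
  obtain ⟨Ka, hKa, hTa⟩ := typ_sub_le (fun k ω => phi (S.dl 1 k) (g k ω) (Q.v k ω)) x.sm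
  obtain ⟨Kb, hKb, hTb⟩ := typ_sub_le (fun k ω => 2 ^ (2 * w k ω * (S.F k).n) /
    dmin (g k ω) (S.dl 1 k) (Q.v k ω) (tE hvq Q g k ω)) (fun e he => by
      refine (x.big (e / 2) (by linarith)).mono ?_
      filter_upwards [x.pd] with k hk ω hω ⟨E, hE⟩
      have h1 : 2 ^ (2 * (w k ω - e / 2) * (S.F k).n) ≤ dmin (g k ω) (S.dl 1 k) (Q.v k ω) (tE hvq Q g k ω) :=
        le_trans hE (Emx_spec hvq _ _ _ E)
      have h2 : 0 < dmin (g k ω) (S.dl 1 k) (Q.v k ω) (tE hvq Q g k ω) := lt_of_lt_of_le (by positivity) h1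
      rw [div_le_iff₀ h2]
      have h3 : (2 : ℝ) ^ (2 * w k ω * (S.F k).n) = 2 ^ (e * (S.F k).n) * 2 ^ (2 * (w k ω - e / 2) * (S.F k).n) := by
        rw [← Real.rpow_add (by norm_num)]
        congr 1
        ring
      rw [h3]
      exact mul_le_mul_of_nonneg_left h1 (by positivity))
  set K0 : ℕ → ℝ := fun k => Ka k + Kb k + Kq k + 2 with hK0
  have hK0S : S.Sub K0 := ((hKa.add hKb).add hKq).add (S.Sub_const zero_le_two)
  have hK0T : (fsp S M).Sub K0 := hK0S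
  set B : ℕ → ℝ := fun k => cW M D (K0 k) with hB
  have hcP := cP_one M D
  have hBS : (fsp S M).Sub B := by
    have h1 : (fsp S M).Sub (fun k => 2 * cP M D * K0 k) := ((fsp S M).Sub_const (by positivity)).mul hK0T
    exact h1
  set ES : ∀ k, (S.F k).Ω → Prop := fun k ω => phi (S.dl 1 k) (g k ω) (Q.v k ω) ≤ Ka k ∧
    2 ^ (2 * w k ω * (S.F k).n) / dmin (g k ω) (S.dl 1 k) (Q.v k ω) (tE hvq Q g k ω) ≤ Kb k with hES
  have hTS : Typ ES := hTa.and hTb
  set ET : ∀ k, ((fsp S M).F k).Ω → Prop := fun k w => ES k w.1 with hET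
  have hTT : Typ ET := (fpj S M).typ hTS
  set ψ := tpsi hvq Q g with hψ
  set X := fq Q with hX
  set Y : (fsp S M).VV M := ⟨fun k w a => clp (B k) (MvPolynomial.eval (X.v k w) (ψ k w a)), by
    refine ⟨B, hBS, ?_⟩
    filter_upwards [hBS.1] with k hk w _ i
    exact clp_bd hk _⟩ with hY
  have hbd : ∀ᶠ k in UF, 1 ≤ K0 k ∧ ∀ ω, (S.F k).μ ω ≠ 0 → ∀ i, |Q.v k ω i| ≤ K0 k := by
    filter_upwards [hQ, hKa.1, hKb.1, hKq.1] with k h1 h2 h3 h4
    refine ⟨by simp only [hK0]; linarith, fun ω hω i => (h1 ω hω i).trans ?_⟩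
    simp only [hK0]
    linarith
  -- the values of the rows
  have hYe : ∀ᶠ k in UF, ∀ w, ((fsp S M).F k).μ w ≠ 0 → ET k w → ∀ j,
      Y.v k w j = MvPolynomial.eval (X.v k w) (ψ k w j) := by
    filter_upwards [hbd, x.pd, hKb.1, hKq.1] with k ⟨h1, h2⟩ h3 h4 h5 w hw hE j
    have hw' := (fpj S M).supp k w hw
    apply clp_eq
    apply psi_bd (x0 := Q.v k w.1) _ _ _ (h3 w.1 hw') (S.dl_pos 1 k) (dl_one_le S k) h1 _ (h2 w.1 hw')
    · exact fun i => fq_near Q k w i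
    · refine hE.1.trans ?_
      simp only [hK0]
      linarith
  have hms : ∀ᶠ k in UF, ∀ w w', ((fsp S M).F k).μ w ≠ 0 → ((fsp S M).F k).μ w' ≠ 0 → ((fsp S M).F k).Z w w' →
      tV hvq Q g V k w w' → ψ k w = ψ k w' := by
    filter_upwards [x.ms] with k hk w w' h1 h2 h3 h4
    have e1 : g k w.1 = g k w'.1 := hk w.1 w'.1 ((fpj S M).supp k w h1) ((fpj S M).supp k w' h2) h3 h4.1
    have e2 : tcd hvq Q g k w = tcd hvq Q g k w' := h4.2
    show psi (g k w.1) (S.dl 1 k) (tcd hvq Q g k w).1 (e00 hvq) (tcd hvq Q g k w).2 =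
      psi (g k w'.1) (S.dl 1 k) (tcd hvq Q g k w').1 (e00 hvq) (tcd hvq Q g k w').2
    rw [e1, e2]
  -- constants
  set K : ℕ → ℝ := fun k => cV1 M D (K0 k) + cS M D q * K0 k with hK
  have hKS : (fsp S M).Sub K := by
    have h0 := Cm_one M D
    have h1 : (fsp S M).Sub (fun k => (M : ℝ) * (Cm M D * 2 ^ (M * D + D) * B k)) :=
      ((fsp S M).Sub_const (Nat.cast_nonneg M)).mul (((fsp S M).Sub_const (by positivity)).mul hBS)
    exact Sp.Sub.add h1 (((fsp S M).Sub_const (cS_pos M D q).le).mul hK0T)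
  have hfull := rows_full (T := fsp S M) hD X (tV hvq Q g V) ψ
    (Eventually.of_forall fun k w _ j => psi_deg _ _ _ _ _ hD j) hms Y ET hTT K hKS (fun k w' => w k w'.1) (by
      filter_upwards [x.w0] with k hk w hw
      exact hk w.1 ((fpj S M).supp k w hw)) hYe (by
      filter_upwards [hbd, x.pd, hKb.1, hKq.1] with k ⟨h1, h2⟩ h3 h4 h5 w hw hE j l
      have hw' := (fpj S M).supp k w hw
      have hδ := S.dl_pos 1 k
      have h6 := psi_diff (A := g k w.1) (r := S.dl 1 k) (tcd hvq Q g k w).1 (e00 hvq) (tcd hvq Q g k w).2 hD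
        (h3 w.1 hw') hδ (dl_one_le S k) h1 (x0 := Q.v k w.1) (hE.1.trans (by simp only [hK0]; linarith)) (h2 w.1 hw')
        (x := X.v k w) (fun i => fq_near Q k w i) (r' := S.dl 3 k) (S.dl_pos 3 k).le (S.dl_anti (by norm_num) k) l j
      have h7 : S.dl 3 k ≤ S.dl 1 k * S.dl 1 k := by
        have e1 : S.dl 1 k * S.dl 1 k = S.dl 2 k := by
          unfold Sp.dl
          rw [← Real.rpow_add (by norm_num)]
          congr 1
          ring
        rw [e1]
        exact S.dl_anti (by norm_num) k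
      have h8 := cV1_nonneg (M := M) (D := D) h1
      have h9 : S.dl 1 k * |MvPolynomial.eval (nodp D (X.v k w) (S.dl 3 k) l) (ψ k w j) -
          MvPolynomial.eval (X.v k w) (ψ k w j)| ≤ S.dl 1 k * (S.dl 1 k * cV1 M D (K0 k)) := by
        refine h6.trans ?_
        rw [← mul_assoc]
        exact mul_le_mul_of_nonneg_right h7 h8
      have h10 := le_of_mul_le_mul_left h9 hδ
      show |MvPolynomial.eval (nodp D (X.v k w) (S.dl 3 k) l) (ψ k w j) -
          MvPolynomial.eval (X.v k w) (ψ k w j)| ≤ K k * S.dl 1 k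
      refine h10.trans ?_
      rw [mul_comm]
      apply mul_le_mul_of_nonneg_right _ hδ.le
      have h11 : 0 ≤ cS M D q * K0 k := mul_nonneg (cS_pos M D q).le (by linarith)
      simp only [hK]
      linarith) (by
      filter_upwards [hbd, x.pd, hKa.1, hKb.1, hKq.1] with k ⟨h1, h2⟩ h3 ha h4 h5 w' hw hE
      have hw' := (fpj S M).supp k w' hw
      have hδ := S.dl_pos 1 k
      have h6 := Isel_spec (h3 w'.1 hw') hδ (x0 := Q.v k w'.1) (x := X.v k w') (fun i => fq_near Q k w' i)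
        (tE hvq Q g k w'.1)
      have h7 := psi_det (g k w'.1) (S.dl 1 k) (tcd hvq Q g k w').1 (e00 hvq) (tcd hvq Q g k w').2 (X.v k w')
      have h8 : (jac (ψ k w') (X.v k w')).det ^ 2 = _ := h7
      rw [h8]
      have hpos : 0 < dmin (g k w'.1) (S.dl 1 k) (Q.v k w'.1) (tE hvq Q g k w'.1) :=
        Pool.Agent.Helper95.LF.PdM.det_pos (pd_block _ (one_Jq_pd _ (h3 w'.1 hw').1 (h3 w'.1 hw').nonneg _))
      have h9 := hE.2
      rw [div_le_iff₀ hpos] at h9
      show 2 ^ (2 * w k w'.1 * (S.F k).n) ≤ _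
      refine h9.trans ?_
      have h10 : Kb k ≤ K0 k := by
        simp only [hK0]
        linarith
      calc Kb k * dmin (g k w'.1) (S.dl 1 k) (Q.v k w'.1) (tE hvq Q g k w'.1) ≤
          K0 k * (cS M D q * (((jac (fam (fac (g k w'.1)) (S.dl 1 k)) (X.v k w')).submatrix
            (Isel (g k w'.1) (S.dl 1 k) (Q.v k w'.1) (X.v k w') (tE hvq Q g k w'.1))
            (fun l => (tE hvq Q g k w'.1) (Sum.inr l))).det) ^ 2) :=
            mul_le_mul h10 h6 hpos.le (by linarith)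
        _ = (cS M D q * K0 k) * (((jac (fam (fac (g k w'.1)) (S.dl 1 k)) (X.v k w')).submatrix
            (Isel (g k w'.1) (S.dl 1 k) (Q.v k w'.1) (X.v k w') (tE hvq Q g k w'.1))
            (fun l => (tE hvq Q g k w'.1) (Sum.inr l))).det) ^ 2 := by ring
        _ ≤ _ := by
          apply mul_le_mul_of_nonneg_right _ (sq_nonneg _)
          have := cV1_nonneg (M := M) (D := D) h1
          simp only [hK]
          linarith) (by
      intro ε hε
      filter_upwards [x.fu (ε / 4) (by linarith), fq_ent Q V (show 0 < ε / 4 by linarith),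
        ent_fin (S := fsp S M) (tcd hvq Q g) ((fpj S M).pb V) (show 0 < ε / 4 by linarith)] with k a b c
      have hn := (S.F k).pos
      have h1 := ((fsp S M).F k).e_triangle (Setoid.ker ((fq Q).cellv 3 k)) (Setoid.ker (tcd hvq Q g k))
        ((fpj S M).pb V k ⊓ ((fsp S M).F k).Z)
      have e1 : Setoid.ker (tcd hvq Q g k) ⊓ ((fpj S M).pb V k ⊓ ((fsp S M).F k).Z) =
          tV hvq Q g V k ⊓ ((fsp S M).F k).Z := by
        show Setoid.ker (tcd hvq Q g k) ⊓ ((fpj S M).pb V k ⊓ ((fsp S M).F k).Z) =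
          ((fpj S M).pb V k ⊓ Setoid.ker (tcd hvq Q g k)) ⊓ ((fsp S M).F k).Z
        ac_rfl
      rw [e1] at h1
      have e2 : ∑ w' : ((fsp S M).F k).Ω, ((fsp S M).F k).μ w' * w k w'.1 = ∑ ω, (S.F k).μ ω * w k ω := by
        have h2 := Pool.Agent.Helper66.HK.e5_sum_push ((fsp S M).F k).μ ((fpj S M).π k) (w k)
        rw [(fpj S M).law k] at h2
        exact h2.symm
      rw [e2]
      have e3 : ((fsp S M).F k).n = (S.F k).n := rfl
      rw [e3] at c ⊢
      have h3 : ε / 4 * (S.F k).n + ε / 4 * (S.F k).n + ε / 4 * (S.F k).n ≤ ε * (S.F k).n := by nlinarith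
      have e4 : ((3 : ℝ) * M - ε) * (S.F k).n = (M - ε / 4) * (S.F k).n + 2 * M * (S.F k).n + ε / 4 * (S.F k).n -
        ε * (S.F k).n := by ring
      linarith)
  refine ⟨Y, fun p k w => relp M D (Fin.cons (MvPolynomial.X p) (ψ k w)), hfull, ?_, ?_, ?_, ?_, ?_⟩
  · filter_upwards [hbd, hQ, hKa.1, hKb.1, hKq.1] with k ⟨h1, h2⟩ h3 h4 h5 h6 w' hw p j hp
    obtain ⟨i, rfl, hpi⟩ := tpin_some hvq Q g hp
    have e1 : ψ k w' (e00 hvq (Sum.inl i)) = MvPolynomial.X p := by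
      show psi (g k w'.1) (S.dl 1 k) (tcd hvq Q g k w').1 (e00 hvq) (tcd hvq Q g k w').2 (e00 hvq (Sum.inl i)) = _
      rw [psi_inl, hpi]
    show X.v k w' p = clp (B k) (MvPolynomial.eval (X.v k w') (ψ k w' (e00 hvq (Sum.inl i))))
    rw [e1, MvPolynomial.eval_X, clp_eq]
    have h7 := fq_near Q k w' p
    have h8 := h3 w'.1 ((fpj S M).supp k w' hw) p
    have h9 := dl_one_le S k
    have h10 := abs_add_le (X.v k w' p - Q.v k w'.1 p) (Q.v k w'.1 p)
    rw [sub_add_cancel] at h10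
    have h11 : K0 k ≤ B k := by
      show K0 k ≤ 2 * cP M D * K0 k
      nlinarith
    have h12 : Kq k + 1 ≤ K0 k := by
      simp only [hK0]
      linarith
    linarith
  · refine Eventually.of_forall fun k w' w'' _ _ _ h => ?_
    have e2 : tcd hvq Q g k w' = tcd hvq Q g k w'' := h.2
    funext p
    unfold tpin
    rw [e2]
  · exact fun p => Eventually.of_forall fun k w' _ => relp_deg _
  · intro p
    filter_upwards [hms] with k hk w' w'' h1 h2 h3 h4
    rw [hk w' w'' h1 h2 h3 h4]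
  · intro p η hη
    refine hTT.mono ?_
    filter_upwards [hYe] with k hk w' hw hE _
    obtain ⟨h1, h2⟩ := relp_root hD (ψ := ψ k w') (fun a => psi_deg _ _ _ _ _ hD a) p (X.v k w')
    refine ⟨h1, ?_, ?_⟩
    · have e1 : Y.v k w' = fun a => MvPolynomial.eval (X.v k w') (ψ k w' a) := funext fun a => hk w' hw hE a
      rw [e1]
      exact h2
    · rw [sub_self, abs_zero]
      positivity

end

end Pool.Agent.Helper76.THK
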